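import Mathlib

set_option autoImplicit false

open MeasureTheory
open scoped ENNReal NNReal MeasureTheory

namespace Pool.Agent.H795R2.Sph

/-- radial projection onto the unit sphere -/
noncomputable def nrm {V : Type*} [NormedAddCommGroup V] [NormedSpace ℝ V] (x : V) : V := ‖x‖⁻¹ • x

lemma nrm_lip {V : Type*} [NormedAddCommGroup V] [NormedSpace ℝ V] {x y : V} (hx : 1 ≤ ‖x‖)
    (hy : 1 ≤ ‖y‖) : ‖nrm x - nrm y‖ ≤ 2 * ‖x - y‖ := by
  have hx0 : 0 < ‖x‖ := by linarith
  have hy0 : 0 < ‖y‖ := by linarith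
  have e : nrm x - nrm y = ‖x‖⁻¹ • (x - y) + ((‖x‖⁻¹ * (‖y‖ - ‖x‖)) * ‖y‖⁻¹) • y := by
    unfold nrm
    rw [smul_sub, sub_eq_add_neg (‖x‖⁻¹ • x), sub_eq_add_neg (‖x‖⁻¹ • x), add_assoc]
    congr 1
    rw [← neg_smul, ← neg_smul, ← add_smul]
    congr 1
    field_simp
    ring
  rw [e]
  refine (norm_add_le _ _).trans ?_
  rw [norm_smul, norm_smul, Real.norm_of_nonneg (inv_nonneg.2 hx0.le)]
  have h1 : ‖x‖⁻¹ * ‖x - y‖ ≤ ‖x - y‖ := by
    have : ‖x‖⁻¹ ≤ 1 := inv_le_one_of_one_le₀ hx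
    nlinarith [norm_nonneg (x - y)]
  have h2 : ‖‖x‖⁻¹ * (‖y‖ - ‖x‖) * ‖y‖⁻¹‖ * ‖y‖ ≤ ‖x - y‖ := by
    rw [norm_mul, norm_mul, norm_inv, norm_inv, norm_norm, norm_norm, mul_assoc,
      inv_mul_cancel₀ hy0.ne', mul_one, Real.norm_eq_abs]
    have h3 : |‖y‖ - ‖x‖| ≤ ‖x - y‖ := by
      rw [abs_sub_comm]; exact abs_norm_sub_norm_le x y
    have : ‖x‖⁻¹ ≤ 1 := inv_le_one_of_one_le₀ hx
    have h4 : 0 ≤ |‖y‖ - ‖x‖| := abs_nonneg _
    nlinarith
  linarith

/-- face parametrisation of the sphere -/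
noncomputable def face (m : ℕ) (i : Fin (m + 1)) (s : ℝ) (y : Fin m → ℝ) : EuclideanSpace ℝ (Fin (m + 1)) :=
  WithLp.toLp 2 (i.insertNth s y)

lemma face_lip (m : ℕ) (i : Fin (m + 1)) (s : ℝ) : ∃ K : ℝ≥0, LipschitzWith K (face m i s) := by
  have h1 : LipschitzWith 1 (fun y : Fin m → ℝ => (i.insertNth s y : Fin (m + 1) → ℝ)) := by
    apply LipschitzWith.of_dist_le_mul
    intro y z
    rw [NNReal.coe_one, one_mul]
    refine (dist_pi_le_iff dist_nonneg).2 fun j => ?_
    refine Fin.succAboveCases i ?_ ?_ j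
    · simp
    · intro k
      simpa using dist_le_pi_dist y z k
  have h2 := PiLp.lipschitzWith_toLp 2 (fun _ : Fin (m + 1) => ℝ)
  exact ⟨_, h2.comp h1⟩

lemma face_norm (m : ℕ) (i : Fin (m + 1)) (s : ℝ) (hs : |s| = 1) (y : Fin m → ℝ) :
    1 ≤ ‖face m i s y‖ := by
  have h := PiLp.norm_apply_le (face m i s y) i
  have h2 : (face m i s y) i = s := by
    unfold face
    simp
  rw [h2, Real.norm_eq_abs, hs] at h
  exact h

lemma cube_lt_top (m : ℕ) : μH[(m : ℝ)] (Set.Icc (fun _ : Fin m => (-1 : ℝ)) (fun _ => 1)) < ⊤ := by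
  have : (μH[(m : ℝ)] : Measure (Fin m → ℝ)) = volume := by
    have := hausdorffMeasure_pi_real (ι := Fin m)
    simpa using this
  rw [this]
  exact isCompact_Icc.measure_lt_top

lemma piece_lt_top (m : ℕ) (i : Fin (m + 1)) (s : ℝ) (hs : |s| = 1) :
    μH[(m : ℝ)] ((fun y => nrm (face m i s y)) '' (Set.Icc (fun _ : Fin m => (-1 : ℝ)) (fun _ => 1))) < ⊤ := by
  obtain ⟨K, hK⟩ := face_lip m i s
  have hL : LipschitzWith (2 * K) (fun y => nrm (face m i s y)) := by
    apply LipschitzWith.of_dist_le_mul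
    intro y z
    rw [dist_eq_norm]
    refine (nrm_lip (face_norm m i s hs y) (face_norm m i s hs z)).trans ?_
    have := hK.dist_le_mul y z
    rw [dist_eq_norm] at this
    push_cast
    nlinarith
  refine lt_of_le_of_lt (hL.hausdorffMeasure_image_le (d := (m : ℝ)) (by positivity) _) ?_
  exact ENNReal.mul_lt_top (ENNReal.rpow_lt_top_of_nonneg (by positivity) ENNReal.coe_ne_top) (cube_lt_top m)

lemma sphere_subset (m : ℕ) : Metric.sphere (0 : EuclideanSpace ℝ (Fin (m + 1))) 1 ⊆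
    ⋃ q : Fin (m + 1) × Bool, (fun y => nrm (face m q.1 (if q.2 then 1 else -1) y)) ''
      (Set.Icc (fun _ : Fin m => (-1 : ℝ)) (fun _ => 1)) := by
  intro x hx
  rw [mem_sphere_zero_iff_norm] at hx
  -- maximal coordinate
  obtain ⟨i, -, hi⟩ := Finset.exists_max_image (Finset.univ : Finset (Fin (m + 1))) (fun j => |x j|)
    ⟨0, Finset.mem_univ _⟩
  have hi' : ∀ j, |x j| ≤ |x i| := fun j => hi j (Finset.mem_univ _)
  have hpos : 0 < |x i| := by
    by_contra h
    have h0 : |x i| = 0 := le_antisymm (not_lt.1 h) (abs_nonneg _)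
    have : x = 0 := by
      ext j
      have := hi' j
      rw [h0] at this
      exact abs_eq_zero.1 (le_antisymm this (abs_nonneg _))
    rw [this, norm_zero] at hx
    exact zero_ne_one hx
  rw [Set.mem_iUnion]
  refine ⟨(i, decide (0 < x i)), ?_⟩
  set t : ℝ := |x i| with ht
  refine ⟨fun j => t⁻¹ * x (i.succAbove j), ?_, ?_⟩
  · constructor
    · intro j
      show (-1 : ℝ) ≤ t⁻¹ * x (i.succAbove j)
      have := (abs_le.1 (hi' (i.succAbove j))).1
      rw [inv_mul_eq_div, le_div_iff₀ hpos]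
      linarith
    · intro j
      show t⁻¹ * x (i.succAbove j) ≤ (1 : ℝ)
      have := (abs_le.1 (hi' (i.succAbove j))).2
      rw [inv_mul_eq_div, div_le_iff₀ hpos]
      linarith
  · show nrm (face m i (if decide (0 < x i) then 1 else -1) (fun j => t⁻¹ * x (i.succAbove j))) = x
    have hs : (if decide (0 < x i) then (1:ℝ) else -1) = t⁻¹ * x i := by
      by_cases h : 0 < x i
      · simp only [h, decide_true, if_true]
        rw [ht, abs_of_pos h, inv_mul_cancel₀ h.ne']
      · simp only [h, decide_false, Bool.false_eq_true, if_false]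
        have hx' : x i < 0 := by
          rcases lt_or_eq_of_le (not_lt.1 h) with h1 | h1
          · exact h1
          · rw [ht, h1, abs_zero] at hpos
            exact absurd hpos (lt_irrefl _)
        rw [ht, abs_of_neg hx']
        have : x i ≠ 0 := hx'.ne
        field_simp
    have e : face m i (if decide (0 < x i) then 1 else -1) (fun j => t⁻¹ * x (i.succAbove j)) = t⁻¹ • x := by
      rw [hs]
      ext j
      unfold face
      refine Fin.succAboveCases i ?_ ?_ j
      · simp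
      · intro k
        simp
    rw [e]
    unfold nrm
    rw [norm_smul, hx, mul_one, norm_inv, Real.norm_of_nonneg hpos.le, inv_inv, smul_smul,
      mul_inv_cancel₀ hpos.ne', one_smul]

lemma sphere_lt_top (m : ℕ) :
    μH[(m : ℝ)] (Metric.sphere (0 : EuclideanSpace ℝ (Fin (m + 1))) 1) < ⊤ := by
  refine lt_of_le_of_lt (measure_mono (sphere_subset m)) ?_
  refine lt_of_le_of_lt (measure_iUnion_fintype_le _ _) ?_
  rw [ENNReal.sum_lt_top]
  intro q _
  apply piece_lt_top
  split_ifs <;> simp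

lemma sphere_pos (m : ℕ) :
    0 < μH[(m : ℝ)] (Metric.sphere (0 : EuclideanSpace ℝ (Fin (m + 1))) 1) := by
  set P : EuclideanSpace ℝ (Fin (m + 1)) → (Fin m → ℝ) := fun x i => x (Fin.castSucc i) with hP
  have hL : LipschitzWith 1 P := by
    apply LipschitzWith.of_dist_le_mul
    intro x y
    rw [NNReal.coe_one, one_mul]
    refine (dist_pi_le_iff dist_nonneg).2 fun i => ?_
    have := PiLp.norm_apply_le (x - y) (Fin.castSucc i)
    simpa [dist_eq_norm, hP] using this
  have h1 := hL.hausdorffMeasure_image_le (d := (m : ℝ)) (by positivity)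
    (Metric.sphere (0 : EuclideanSpace ℝ (Fin (m + 1))) 1)
  rw [ENNReal.coe_one, ENNReal.one_rpow, one_mul] at h1
  refine lt_of_lt_of_le ?_ h1
  set t : ℝ := 1 / (m + 1) with ht
  have ht0 : 0 < t := by positivity
  have h2 : Set.Icc (fun _ : Fin m => -t) (fun _ => t) ⊆
      P '' (Metric.sphere (0 : EuclideanSpace ℝ (Fin (m + 1))) 1) := by
    intro q hq
    have hq' : ∀ i, q i ^ 2 ≤ t ^ 2 := by
      intro i
      have a0 := hq.1 i
      have b0 := hq.2 i
      simp only at a0 b0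
      exact sq_le_sq' a0 b0
    have hsum : ∑ i, q i ^ 2 ≤ 1 := by
      calc ∑ i, q i ^ 2 ≤ ∑ _i : Fin m, t ^ 2 := Finset.sum_le_sum (fun i _ => hq' i)
        _ = m * t ^ 2 := by rw [Finset.sum_const, Finset.card_univ, Fintype.card_fin, nsmul_eq_mul]
        _ ≤ (m + 1) ^ 2 * t ^ 2 := by
            apply mul_le_mul_of_nonneg_right _ (by positivity)
            have : (0:ℝ) ≤ m := Nat.cast_nonneg m
            nlinarith
        _ = 1 := by rw [ht]; field_simp
    refine ⟨WithLp.toLp 2 (Fin.snoc (α := fun _ => ℝ) q (Real.sqrt (1 - ∑ i, q i ^ 2))), ?_, ?_⟩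
    · rw [mem_sphere_zero_iff_norm, EuclideanSpace.norm_eq, Fin.sum_univ_castSucc]
      simp only [Fin.snoc_castSucc, Fin.snoc_last, Real.norm_eq_abs, sq_abs]
      rw [Real.sq_sqrt (by linarith)]
      simp
    · funext i
      simp [hP]
  refine lt_of_lt_of_le ?_ (measure_mono h2)
  have : (μH[(m : ℝ)] : Measure (Fin m → ℝ)) = volume := by
    have := hausdorffMeasure_pi_real (ι := Fin m)
    simpa using this
  rw [this, Real.volume_Icc_pi]
  rw [Finset.prod_const]
  apply ENNReal.pow_pos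
  rw [ENNReal.ofReal_pos]
  linarith

section gen

variable {E : Type*} [NormedAddCommGroup E] [InnerProductSpace ℝ E] [FiniteDimensional ℝ E]
  [MeasurableSpace E] [BorelSpace E]

lemma sphere_gen {m : ℕ} (hm : Module.finrank ℝ E = m + 1) :
    0 < μH[(m : ℝ)] (Metric.sphere (0 : E) 1) ∧ μH[(m : ℝ)] (Metric.sphere (0 : E) 1) < ⊤ := by
  have b := (stdOrthonormalBasis ℝ E).reindex (finCongr hm)
  have h1 : μH[(m : ℝ)] (b.repr '' (Metric.sphere (0 : E) 1)) = μH[(m : ℝ)] (Metric.sphere (0 : E) 1) :=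
    b.repr.isometry.hausdorffMeasure_image (Or.inl (by positivity)) _
  have h2 : b.repr '' (Metric.sphere (0 : E) 1) = Metric.sphere (0 : EuclideanSpace ℝ (Fin (m + 1))) 1 := by
    rw [LinearIsometryEquiv.image_sphere, map_zero]
  rw [← h1, h2]
  exact ⟨sphere_pos m, sphere_lt_top m⟩

end gen

end Pool.Agent.H795R2.Sph
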