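import Mathlib
import Pool.Agent.HpBall.Sphere
import Pool.Agent.Helper843.SphB
import Pool.Agent.H795R2.Hp.Sph

set_option autoImplicit false

open MeasureTheory
open scoped ENNReal NNReal MeasureTheory

namespace Pool.Agent.H795R2.Br

open Pool.Agent.HpBall
open Pool.Agent.Helper843.Haar Pool.Agent.Helper843.SphB

attribute [local instance] compactSpace_UG secondCountable_UG measUG borelUG
attribute [local instance] InnerProductSpace.complexToReal

set_option linter.unusedSectionVars false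

variable {V : Type} [NormedAddCommGroup V] [InnerProductSpace ℂ V] [FiniteDimensional ℂ V]
  [MeasurableSpace V] [BorelSpace V]

/-- the transported Lebesgue measure -/
noncomputable def volV {n : ℕ} (φ : E n ≃ₗᵢ[ℂ] V) : Measure V := (vol n).map φ

lemma sig_lint {n : ℕ} (φ : E n ≃ₗᵢ[ℂ] V) (h : V → ℝ≥0∞) (hh : Measurable h) :
    ∫⁻ ξ, h (φ ξ) ∂(sig n) =
      ∫⁻ x, h ((((‖x‖⁻¹ : ℝ)) : ℂ) • x) * ENNReal.ofReal (Real.exp (-‖x‖ ^ 2)) ∂(volV φ) := by
  have hφ : Measurable φ := φ.continuous.measurable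
  have hd : Measurable (fun z : E n => ENNReal.ofReal (Real.exp (-‖z‖ ^ 2))) := by fun_prop
  have hp : Measurable (fun x : V => (((‖x‖⁻¹ : ℝ)) : ℂ) • x) := by fun_prop
  have hd' : Measurable (fun x : V => ENNReal.ofReal (Real.exp (-‖x‖ ^ 2))) := by fun_prop
  have hhφ : Measurable (fun ξ : E n => h (φ ξ)) := hh.comp hφ
  have hhp : Measurable (fun z : E n => h (φ ((((‖z‖⁻¹ : ℝ)) : ℂ) • z))) := hhφ.comp measurable_proj
  have hr : Measurable (fun x : V => h ((((‖x‖⁻¹ : ℝ)) : ℂ) • x) * ENNReal.ofReal (Real.exp (-‖x‖ ^ 2))) :=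
    (hh.comp hp).mul hd'
  unfold sig
  rw [lintegral_map hhφ measurable_proj]
  unfold gam
  rw [lintegral_withDensity_eq_lintegral_mul _ hd hhp]
  unfold volV
  rw [lintegral_map hr hφ]
  apply lintegral_congr
  intro z
  simp only [Pi.mul_apply, map_smul, LinearIsometryEquiv.norm_map]
  rw [mul_comm]

lemma volV_haar {n : ℕ} (φ : E n ≃ₗᵢ[ℂ] V) : (volV φ).IsAddHaarMeasure := by
  unfold volV
  exact φ.toContinuousLinearEquiv.isAddHaarMeasure_map _

lemma volV_map {n : ℕ} (φ : E n ≃ₗᵢ[ℂ] V) (U : V ≃ₗᵢ[ℝ] V) : (volV φ).map U = volV φ := by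
  have := volV_haar φ
  have h1 : (volume : Measure V).map U = volume := U.measurePreserving.map_eq
  have h2 := Measure.isAddLeftInvariant_eq_smul (volV φ) (volume : Measure V)
  rw [h2, Measure.map_smul, h1]

lemma sig_inv {n : ℕ} (φ : E n ≃ₗᵢ[ℂ] V) (h : V → ℝ≥0∞) (hh : Measurable h) (U : V ≃ₗᵢ[ℝ] V) :
    ∫⁻ ξ, h (U (φ ξ)) ∂(sig n) = ∫⁻ ξ, h (φ ξ) ∂(sig n) := by
  have hU : Measurable U := U.continuous.measurable
  have hp : Measurable (fun x : V => (((‖x‖⁻¹ : ℝ)) : ℂ) • x) := by fun_prop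
  have hd' : Measurable (fun x : V => ENNReal.ofReal (Real.exp (-‖x‖ ^ 2))) := by fun_prop
  have hr : Measurable (fun x : V => h ((((‖x‖⁻¹ : ℝ)) : ℂ) • x) * ENNReal.ofReal (Real.exp (-‖x‖ ^ 2))) :=
    (hh.comp hp).mul hd'
  rw [sig_lint φ (fun x => h (U x)) (hh.comp hU), sig_lint φ h hh]
  conv_rhs => rw [← volV_map φ U]
  rw [lintegral_map hr hU]
  apply lintegral_congr
  intro x
  simp only [LinearIsometryEquiv.norm_map]
  congr 2
  rw [Complex.coe_smul, Complex.coe_smul, map_smul]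

/-- integration over the sphere with respect to the Hausdorff measure -/
theorem bridge {n m : ℕ} (hm : 2 * n = m + 1) (φ : E n ≃ₗᵢ[ℂ] V) :
    ∃ c : ℝ≥0∞, 0 < c ∧ c ≠ ⊤ ∧ ∀ h : V → ℝ≥0∞, Measurable h →
      ∫⁻ ζ in Metric.sphere (0 : V) 1, h ζ ∂(μH[(m : ℝ)] : Measure V) =
        c * ∫⁻ ξ, h (φ ξ) ∂(sig n) := by
  have hn : 1 ≤ n := by omega
  have hC : CompleteSpace V := FiniteDimensional.complete ℂ V
  have hfr : Module.finrank ℝ V = m + 1 := by
    rw [finrank_real_of_complex, ← LinearEquiv.finrank_eq φ.toLinearEquiv, ← hm]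
    simp
  obtain ⟨hpos, hfin⟩ := Pool.Agent.H795R2.Sph.sphere_gen (E := V) hfr
  have hnt : Nontrivial V := Module.nontrivial_of_finrank_pos (R := ℝ) (by omega)
  obtain ⟨x0, hx0⟩ := exists_norm_eq V (zero_le_one (α := ℝ))
  have hcl : MeasurableSet (Metric.sphere (0 : V) 1) := Metric.isClosed_sphere.measurableSet
  have hf2 : IsFiniteMeasure ((μH[(m : ℝ)] : Measure V).restrict (Metric.sphere (0 : V) 1)) :=
    ⟨by rw [Measure.restrict_apply_univ]; exact hfin⟩
  have hφm : Measurable φ := φ.continuous.measurable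
  set S : ℝ≥0∞ := μH[(m : ℝ)] (Metric.sphere (0 : V) 1) with hS
  refine ⟨S / sig n Set.univ, ENNReal.div_pos hpos.ne' (measure_ne_top _ _),
    ENNReal.div_ne_top hfin.ne sig_univ_pos.ne', ?_⟩
  intro h hh
  -- first average
  have h1 := haar_avg ((μH[(m : ℝ)] : Measure V).restrict (Metric.sphere (0 : V) 1)) h hh x0 ?_ ?_
  · have h2 := haar_avg ((sig n).map φ) h hh x0 ?_ ?_
    · rw [Measure.restrict_apply_univ] at h1
      rw [Measure.map_apply hφm MeasurableSet.univ, Set.preimage_univ, lintegral_map hh hφm] at h2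
      set T : ℝ≥0∞ := (Measure.haar : Measure (unitary (V →L[ℝ] V))) Set.univ with hT
      have hT0 : T ≠ 0 := tot_ne_zero
      have hTt : T ≠ ⊤ := tot_ne_top
      set a := ∫⁻ Q, h (act Q x0) ∂(Measure.haar : Measure (unitary (V →L[ℝ] V))) with ha
      set X := ∫⁻ ζ in Metric.sphere (0 : V) 1, h ζ ∂(μH[(m : ℝ)] : Measure V) with hX
      set Y := ∫⁻ ξ, h (φ ξ) ∂(sig n) with hY
      have hs0 : sig n Set.univ ≠ 0 := sig_univ_pos.ne'
      have hst : sig n Set.univ ≠ ⊤ := measure_ne_top _ _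
      have h3 : (X * sig n Set.univ) * T = (S * Y) * T := by
        calc (X * sig n Set.univ) * T = (X * T) * sig n Set.univ := by ring
          _ = (a * S) * sig n Set.univ := by rw [← h1]
          _ = S * (a * sig n Set.univ) := by ring
          _ = S * (Y * T) := by rw [h2]
          _ = (S * Y) * T := by ring
      have h4 : X * sig n Set.univ = S * Y := (ENNReal.mul_left_inj hT0 hTt).1 h3
      have h5 : X = S * Y / sig n Set.univ := by
        rw [← h4, ENNReal.mul_div_cancel_right hs0 hst]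
      rw [h5, ENNReal.mul_div_right_comm]
    · intro Q
      have hU : Measurable (Unitary.linearIsometryEquiv (Q⁻¹ : unitary (V →L[ℝ] V)) : V → V) :=
        (Unitary.linearIsometryEquiv (Q⁻¹ : unitary (V →L[ℝ] V))).continuous.measurable
      have hhU : Measurable (fun x : V => h ((Unitary.linearIsometryEquiv (Q⁻¹ : unitary (V →L[ℝ] V)) : V → V) x)) :=
        hh.comp hU
      rw [act_eq, lintegral_map hhU hφm, lintegral_map hh hφm]
      exact sig_inv φ h hh _
    · rw [ae_map_iff hφm.aemeasurable]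
      · filter_upwards [sig_ae_norm hn] with ξ hξ
        exact haar_const hfr _ _ x0 (by rw [LinearIsometryEquiv.norm_map]; exact hξ) hx0
      · apply measurableSet_eq_fun _ measurable_const
        have hm2 : Measurable (fun p : unitary (V →L[ℝ] V) × V => h (act p.1 p.2)) :=
          hh.comp act_continuous.measurable
        exact hm2.lintegral_prod_left'
  · intro Q
    have hmp : MeasurePreserving (Unitary.linearIsometryEquiv (Q⁻¹ : unitary (V →L[ℝ] V)) : V → V)
        μH[(m : ℝ)] μH[(m : ℝ)] :=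
      (Unitary.linearIsometryEquiv (Q⁻¹ : unitary (V →L[ℝ] V))).toIsometryEquiv.measurePreserving_hausdorffMeasure _
    have hpre : (Unitary.linearIsometryEquiv (Q⁻¹ : unitary (V →L[ℝ] V)) : V → V) ⁻¹'
        (Metric.sphere (0 : V) 1) = Metric.sphere (0 : V) 1 := by
      ext x
      simp
    have := (hmp.restrict_preimage hcl).lintegral_comp hh
    rw [hpre] at this
    rw [act_eq]
    exact this
  · rw [ae_restrict_iff' hcl]
    exact Filter.Eventually.of_forall fun x hx =>
      haar_const hfr _ x x0 (by rwa [mem_sphere_zero_iff_norm] at hx) hx0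

end Pool.Agent.H795R2.Br
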