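import Mathlib
import Pool.Agent.HpBall.Final3
import Pool.Agent.HpBall.Synth
import Pool.Agent.HpBall.Weights
import Pool.Agent.HpBall.Combine
import Pool.Agent.HpBall.Transfer
import Pool.Agent.HpBall.Tree

set_option autoImplicit false

open MeasureTheory Complex
open scoped ENNReal NNReal

namespace Pool.Agent.H795R2.Hp

open Pool.Agent.HpBall

/-- the dyadic points of the circle, as points of the sphere of `E 1` -/
noncomputable def p1 (l i : ℕ) : E 1 := WithLp.toLp 2 (fun _ => om l i)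

lemma p1_apply (l i : ℕ) : (p1 l i) 0 = om l i := rfl

lemma norm_E1 (x : E 1) : ‖x‖ = ‖x 0‖ := by
  rw [EuclideanSpace.norm_eq]
  simp [Real.sqrt_sq]

lemma inner_E1 (x y : E 1) : (inner ℂ x y : ℂ) = y 0 * (starRingEnd ℂ) (x 0) := by
  rw [PiLp.inner_apply]
  simp

lemma p1_norm (l i : ℕ) : ‖p1 l i‖ = 1 := by
  rw [norm_E1, p1_apply, om_norm]

lemma sc_one (l : ℕ) : sc 1 l = 2 ^ l := by
  unfold sc
  simp

lemma om_eq (l i : ℕ) : om l i = Complex.exp (((2 * Real.pi * i / 2 ^ l : ℝ) : ℂ) * I) := by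
  unfold om
  congr 1
  push_cast
  ring

lemma conj_exp_I (x : ℝ) : (starRingEnd ℂ) (Complex.exp ((x : ℂ) * I)) = Complex.exp (((-x : ℝ) : ℂ) * I) := by
  rw [← Complex.exp_conj]
  simp

lemma rho_p1 (l i m j : ℕ) : rho (p1 l i) (p1 m j) =
    ‖1 - Complex.exp (((2 * Real.pi * j / 2 ^ m - 2 * Real.pi * i / 2 ^ l : ℝ) : ℂ) * I)‖ := by
  unfold rho
  rw [inner_E1, p1_apply, p1_apply, om_eq, om_eq, conj_exp_I, ← Complex.exp_add]
  congr 3
  push_cast
  ring

lemma exp_dist_le (x : ℝ) : ‖1 - Complex.exp ((x : ℂ) * I)‖ ≤ |x| := by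
  have h := J15_delta (-x)
  have e1 : Complex.exp (-(((-x : ℝ) : ℂ) * I)) = Complex.exp ((x : ℂ) * I) := by
    congr 1; push_cast; ring
  rw [e1] at h
  rw [h]
  have h2 : |Real.sin (-x / 2)| ≤ |-x / 2| := Real.abs_sin_le_abs
  have h3 : |-x / 2| = |x| / 2 := by rw [abs_div, abs_neg]; norm_num
  rw [h3] at h2
  linarith

lemma exp_dist_ge {x : ℝ} (h0 : 0 ≤ x) (h1 : x ≤ 2 * Real.pi) :
    2 / Real.pi * x ≤ ‖1 - Complex.exp ((x : ℂ) * I)‖ ∨
      2 / Real.pi * (2 * Real.pi - x) ≤ ‖1 - Complex.exp ((x : ℂ) * I)‖ := by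
  have h := J15_delta_lower h0 h1
  have e : ‖1 - Complex.exp (-((x : ℂ) * I))‖ = ‖1 - Complex.exp ((x : ℂ) * I)‖ := by
    have := J15_delta x
    rw [this]
    have h2 := J15_delta (-x)
    have e1 : Complex.exp (-(((-x : ℝ) : ℂ) * I)) = Complex.exp ((x : ℂ) * I) := by
      congr 1; push_cast; ring
    rw [e1] at h2
    rw [h2, neg_div, Real.sin_neg, abs_neg]
  rw [e] at h
  exact h

lemma tree_p1 : TreeFam 1 p1 4 (2 * Real.pi) where
  unit := p1_norm
  cpos := by norm_num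
  sep := by
    intro l i j hi hj hij
    rw [sc_one]
    -- wlog i < j
    have key : ∀ i j : ℕ, i < j → j < 2 ^ l → 4 ≤ 2 ^ l * rho (p1 l i) (p1 l j) := by
      intro i j hij hj
      rw [rho_p1]
      set x : ℝ := 2 * Real.pi * j / 2 ^ l - 2 * Real.pi * i / 2 ^ l with hx
      have hx' : x = 2 * Real.pi * ((j : ℝ) - i) / 2 ^ l := by rw [hx]; ring
      have hij' : (i : ℝ) + 1 ≤ j := by exact_mod_cast hij
      have hj' : (j : ℝ) + 1 ≤ 2 ^ l := by exact_mod_cast hj
      have hi0 : (0 : ℝ) ≤ i := Nat.cast_nonneg _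
      have hpi := Real.pi_pos
      have h2l : (0 : ℝ) < 2 ^ l := by positivity
      have hx1 : 2 * Real.pi * 1 / 2 ^ l ≤ x := by
        rw [hx']
        gcongr
        linarith
      have hx2 : x ≤ 2 * Real.pi - 2 * Real.pi * 1 / 2 ^ l := by
        have e : 2 * Real.pi - 2 * Real.pi * 1 / 2 ^ l = 2 * Real.pi * (2 ^ l - 1) / 2 ^ l := by
          field_simp
        rw [hx', e]
        apply div_le_div_of_nonneg_right _ h2l.le
        apply mul_le_mul_of_nonneg_left _ (by positivity)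
        linarith
      have hpos : 0 < 2 * Real.pi * 1 / 2 ^ l := by positivity
      rcases exp_dist_ge (x := x) (by linarith) (by linarith) with h | h
      · have h3 : 2 / Real.pi * (2 * Real.pi * 1 / 2 ^ l) ≤
            ‖1 - Complex.exp ((x : ℂ) * I)‖ := le_trans (by gcongr) h
        have h4 : 2 / Real.pi * (2 * Real.pi * 1 / 2 ^ l) = 4 / 2 ^ l := by field_simp; ring
        rw [h4] at h3
        rw [div_le_iff₀ h2l] at h3
        linarith
      · have h3 : 2 / Real.pi * (2 * Real.pi * 1 / 2 ^ l) ≤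
            ‖1 - Complex.exp ((x : ℂ) * I)‖ := le_trans (by gcongr; linarith) h
        have h4 : 2 / Real.pi * (2 * Real.pi * 1 / 2 ^ l) = 4 / 2 ^ l := by field_simp; ring
        rw [h4] at h3
        rw [div_le_iff₀ h2l] at h3
        linarith
    rcases lt_or_gt_of_ne hij with h | h
    · exact key i j h hj
    · rw [rho_comm]
      exact key j i h hi
  nest := by
    intro l m j hlm hj
    rw [sc_one, rho_comm, rho_p1]
    refine le_trans (mul_le_mul_of_nonneg_left (exp_dist_le _) (by positivity)) ?_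
    have h2l : (0 : ℝ) < 2 ^ l := by positivity
    have hpi := Real.pi_pos
    have hsplit : (2 : ℝ) ^ m = 2 ^ l * 2 ^ (m - l) := by
      rw [← pow_add]; congr 1; omega
    have hb : (0 : ℝ) < 2 ^ (m - l) := by positivity
    have hq : ((j / 2 ^ (m - l) : ℕ) : ℝ) * 2 ^ (m - l) ≤ j := by
      exact_mod_cast Nat.div_mul_le_self j (2 ^ (m - l))
    have hq2 : (j : ℝ) ≤ (((j / 2 ^ (m - l) : ℕ) : ℝ) + 1) * 2 ^ (m - l) := by
      have := Nat.lt_div_mul_add (a := j) (b := 2 ^ (m - l)) (by positivity)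
      have h2 : (j : ℝ) < ((j / 2 ^ (m - l) : ℕ) : ℝ) * 2 ^ (m - l) + 2 ^ (m - l) := by
        exact_mod_cast this
      linarith
    set q : ℝ := ((j / 2 ^ (m - l) : ℕ) : ℝ) with hqd
    have e : 2 * Real.pi * j / 2 ^ m - 2 * Real.pi * q / 2 ^ l =
        2 * Real.pi / 2 ^ l * ((j - q * 2 ^ (m - l)) / 2 ^ (m - l)) := by
      rw [hsplit]; field_simp
    rw [e, abs_of_nonneg (by
      apply mul_nonneg (by positivity)
      apply div_nonneg _ hb.le
      linarith)]
    have h3 : (j - q * 2 ^ (m - l)) / 2 ^ (m - l) ≤ 1 := by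
      rw [div_le_one hb]; linarith
    calc 2 ^ l * (2 * Real.pi / 2 ^ l * ((j - q * 2 ^ (m - l)) / 2 ^ (m - l)))
        = 2 * Real.pi * ((j - q * 2 ^ (m - l)) / 2 ^ (m - l)) := by field_simp
      _ ≤ 2 * Real.pi * 1 := by gcongr
      _ = 2 * Real.pi := by ring

end Pool.Agent.H795R2.Hp
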