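import Mathlib
import Pool.Agent.H795R2.Hp.D1

set_option autoImplicit false

open MeasureTheory Complex
open scoped ENNReal NNReal

namespace Pool.Agent.H795R2.Hp

open Pool.Agent.HpBall

/-- the disc molecules as functions on `E 1` -/
noncomputable def d1 (l i : ℕ) (z : E 1) : ℂ := dm vD l i (z 0)

lemma E1_coord_diff : Differentiable ℂ (fun z : E 1 => z 0) := by
  exact (EuclideanSpace.proj (𝕜 := ℂ) (0 : Fin 1)).differentiable

lemma d1_diff (l i : ℕ) : Differentiable ℂ (d1 l i) :=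
  (dm_diff vD_bump l i).comp E1_coord_diff

lemma d1_decay (K : ℝ) : ∃ B : ℝ, 0 < B ∧ ∀ l i, i < 2 ^ l → ∀ ξ : E 1, ‖ξ‖ = 1 →
    ∀ r : ℝ, 0 ≤ r → r ≤ 1 →
    ‖d1 l i ((r : ℂ) • ξ)‖ ≤ B * (1 + 1 / 4 * sc 1 l * rho ξ (p1 l i)) ^ (-K) := by
  obtain ⟨M, hM⟩ := exists_nat_ge K
  obtain ⟨C, hC, hk⟩ := multiplier_kernel vD (1 / 4) 4 vD_bump M (1 / 4) (by norm_num)
  refine ⟨C / 4 * 2 ^ M, by positivity, ?_⟩
  intro l i hi ξ hξ r hr0 hr1
  rw [sc_one]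
  set N : ℝ := 1 / 4 * 2 ^ l with hN
  have h2l : (1 : ℝ) ≤ 2 ^ l := one_le_pow₀ (by norm_num)
  have hN4 : 1 / 4 ≤ N := by rw [hN]; linarith
  have hN0 : 0 < N := by linarith
  set u : ℂ := ξ 0 * (starRingEnd ℂ) (om l i) with hu
  have hun : ‖u‖ = 1 := by
    rw [hu, norm_mul, RCLike.norm_conj, om_norm, ← norm_E1, hξ, mul_one]
  have hrho : rho ξ (p1 l i) = ‖1 - u‖ := by
    unfold rho
    rw [inner_E1, p1_apply]
    have : (1 - om l i * (starRingEnd ℂ) (ξ 0)) = (starRingEnd ℂ) (1 - u) := by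
      rw [hu, map_sub, map_one, map_mul, Complex.conj_conj]; ring
    rw [this, RCLike.norm_conj]
  have hz : ((r : ℂ) • ξ) 0 * (starRingEnd ℂ) (om l i) = (r : ℂ) * u := by
    rw [hu, PiLp.smul_apply, smul_eq_mul]; ring
  have hrad := m_rad hr0 hr1 (u := u) hun.le
  have h1 : ‖d1 l i ((r : ℂ) • ξ)‖ = (1 / 2 ^ l) * ‖ker vD N ((r : ℂ) * u)‖ := by
    unfold d1 dm
    rw [hz, norm_mul]
    simp [hN]
  rw [h1, hrho]
  have h2 := hk N hN4 ((r : ℂ) * u) hrad.1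
  have h3 : (1 + N * ‖1 - (r : ℂ) * u‖) ^ (-(M : ℝ)) ≤ 2 ^ M * (1 + N * ‖1 - u‖) ^ (-(M : ℝ)) := by
    have hb : (1 + N * ‖1 - u‖) / 2 ≤ 1 + N * ‖1 - (r : ℂ) * u‖ := by
      have := mul_le_mul_of_nonneg_left hrad.2 hN0.le
      linarith
    have hpos : 0 < (1 + N * ‖1 - u‖) / 2 := by positivity
    have h4 := Real.rpow_le_rpow_of_nonpos hpos hb (by simp : -(M : ℝ) ≤ 0)
    refine h4.trans (le_of_eq ?_)
    rw [Real.div_rpow (by positivity) (by norm_num), Real.rpow_neg (by norm_num : (0:ℝ) ≤ 2),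
      Real.rpow_natCast]
    field_simp
  have h5 : (1 + N * ‖1 - u‖) ^ (-(M : ℝ)) ≤ (1 + N * ‖1 - u‖) ^ (-K) := by
    apply Real.rpow_le_rpow_of_exponent_le
    · have : 0 ≤ N * ‖1 - u‖ := by positivity
      linarith
    · linarith
  have h2l0 : (0:ℝ) < 2 ^ l := by positivity
  calc (1 / 2 ^ l) * ‖ker vD N ((r : ℂ) * u)‖ ≤ (1 / 2 ^ l) * (C * N * (1 + N * ‖1 - (r : ℂ) * u‖) ^ (-(M : ℝ))) := by
        gcongr
    _ ≤ (1 / 2 ^ l) * (C * N * (2 ^ M * (1 + N * ‖1 - u‖) ^ (-K))) := by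
        gcongr
        exact h3.trans (by gcongr)
    _ = C / 4 * 2 ^ M * (1 + N * ‖1 - u‖) ^ (-K) := by
        rw [hN]; field_simp

/-- orthogonality of finite sums of homogeneous functions with disjoint degrees -/
lemma orth_sums {n : ℕ} (hn : 1 ≤ n) (R R' : ℕ) (f g : ℕ → E n → ℂ)
    (hf : ∀ k (c : ℂ) (ξ : E n), f k (c • ξ) = c ^ k * f k ξ)
    (hg : ∀ k (c : ℂ) (ξ : E n), g k (c • ξ) = c ^ k * g k ξ)
    (cf : ∀ k, Continuous (f k)) (cg : ∀ k, Continuous (g k))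
    (hd : ∀ k, (∀ ξ, f k ξ = 0) ∨ (∀ ξ, g k ξ = 0)) :
    ∫ ξ, (∑ k ∈ Finset.range R, f k ξ) * (starRingEnd ℂ) (∑ k ∈ Finset.range R', g k ξ) ∂(sig n) = 0 := by
  have h1 : ∀ ξ : E n, (∑ k ∈ Finset.range R, f k ξ) * (starRingEnd ℂ) (∑ k ∈ Finset.range R', g k ξ)
      = ∑ k ∈ Finset.range R, ∑ k' ∈ Finset.range R', f k ξ * (starRingEnd ℂ) (g k' ξ) := by
    intro ξ
    rw [map_sum, Finset.sum_mul_sum]
  simp_rw [h1]
  have hcont : ∀ k k', Continuous fun ξ : E n => f k ξ * (starRingEnd ℂ) (g k' ξ) := by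
    intro k k'
    exact (cf k).mul (Complex.continuous_conj.comp (cg k'))
  rw [integral_finsetSum]
  · apply Finset.sum_eq_zero
    intro k _
    rw [integral_finsetSum]
    · apply Finset.sum_eq_zero
      intro k' _
      by_cases hkk : k = k'
      · subst hkk
        rcases hd k with h | h
        · simp [h]
        · simp [h]
      · exact m_orth hkk (f k) (g k') (hf k) (hg k')
    · intro k' _
      exact m_integrable hn (hcont k k')
  · intro k _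
    exact integrable_finsetSum _ (fun k' _ => m_integrable hn (hcont k k'))

lemma d1_orth (l m i j : ℕ) (hlm : l + 4 ≤ m) (r : ℝ) :
    ∫ ξ, d1 l i ((r : ℂ) • ξ) * (starRingEnd ℂ) (d1 m j ((r : ℂ) • ξ)) ∂(sig 1) = 0 := by
  -- homogeneous parts
  let H : ℕ → ℕ → ℕ → E 1 → ℂ := fun l i k ξ =>
    (1 / 2 ^ l) * (((vD ((k : ℝ) / (1 / 4 * 2 ^ l)) : ℝ) : ℂ) *
      (((r : ℂ) • ξ) 0 * (starRingEnd ℂ) (om l i)) ^ k)
  have hH : ∀ l i ξ, d1 l i ((r : ℂ) • ξ) = ∑ k ∈ Finset.range (2 ^ l), H l i k ξ := by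
    intro l i ξ
    show dm vD l i (((r : ℂ) • ξ) 0) = _
    rw [dm_eq_sum vD_bump, Finset.mul_sum]
  simp_rw [hH]
  have hhom : ∀ l i k (c : ℂ) (ξ : E 1), H l i k (c • ξ) = c ^ k * H l i k ξ := by
    intro l i k c ξ
    show (1 / 2 ^ l) * (((vD ((k : ℝ) / (1 / 4 * 2 ^ l)) : ℝ) : ℂ) *
      (((r : ℂ) • (c • ξ)) 0 * (starRingEnd ℂ) (om l i)) ^ k) = c ^ k * ((1 / 2 ^ l) * (((vD ((k : ℝ) / (1 / 4 * 2 ^ l)) : ℝ) : ℂ) *
      (((r : ℂ) • ξ) 0 * (starRingEnd ℂ) (om l i)) ^ k))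
    simp only [PiLp.smul_apply, smul_eq_mul]
    ring
  have hcont : ∀ l i k, Continuous (H l i k) := by
    intro l i k
    have c0 : Continuous (fun ξ : E 1 => ((r : ℂ) • ξ) 0) :=
      (E1_coord_diff.continuous).comp (continuous_const_smul _)
    exact continuous_const.mul (continuous_const.mul ((c0.mul continuous_const).pow k))
  apply orth_sums le_rfl
  · exact fun k c ξ => hhom l i k c ξ
  · exact fun k c ξ => hhom m j k c ξ
  · exact fun k => hcont l i k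
  · exact fun k => hcont m j k
  · intro k
    by_cases h : vD ((k : ℝ) / (1 / 4 * 2 ^ l)) = 0
    · left
      intro ξ
      show (1 / 2 ^ l) * (((vD ((k : ℝ) / (1 / 4 * 2 ^ l)) : ℝ) : ℂ) * _) = 0
      rw [h]; simp
    · right
      intro ξ
      have h1 := df_v_supp vD_bump h
      have h2 : vD ((k : ℝ) / (1 / 4 * 2 ^ m)) = 0 := by
        apply vD_bump.lo
        rw [div_le_iff₀ (by positivity)]
        have e : (2:ℝ) ^ m = 2 ^ (m - (l + 4)) * (2 ^ l * 16) := by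
          have : (16 : ℝ) = 2 ^ 4 := by norm_num
          rw [this, ← pow_add, ← pow_add]; congr 1; omega
        have h3 : (k : ℝ) ≤ 2 ^ l := by exact_mod_cast h1.le
        have h4 : (1 : ℝ) ≤ 2 ^ (m - (l + 4)) := one_le_pow₀ (by norm_num)
        have h5 : (2:ℝ) ^ l * 16 ≤ 2 ^ m := by
          rw [e]
          nlinarith [show (0:ℝ) < 2 ^ l by positivity]
        linarith
      show (1 / 2 ^ m) * (((vD ((k : ℝ) / (1 / 4 * 2 ^ m)) : ℝ) : ℂ) * _) = 0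
      rw [h2]; simp

end Pool.Agent.H795R2.Hp
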