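import Mathlib
import Pool.Agent.H795R2.Hp.D2

set_option autoImplicit false

open MeasureTheory Complex
open scoped ENNReal NNReal

namespace Pool.Agent.H795R2.Hp

open Pool.Agent.HpBall

/-- normalisation constant between the measure on the sphere of `E 1` and the circle -/
noncomputable def kap : ℝ := (sig 1 Set.univ).toReal / (2 * Real.pi)

lemma kap_pos : 0 < kap := by
  unfold kap
  have h : 0 < (sig 1 Set.univ).toReal :=
    ENNReal.toReal_pos sig_univ_pos.ne' (measure_ne_top _ _)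
  have := Real.pi_pos
  positivity

lemma circ_per (G : ℂ → ℝ) (w : ℂ) (hw : ‖w‖ = 1) :
    ∫ t in (0 : ℝ)..2 * Real.pi, G (Complex.exp (t * I) * w) =
      ∫ t in (0 : ℝ)..2 * Real.pi, G (Complex.exp (t * I)) := by
  set a : ℝ := Complex.arg w with ha
  have hwa : w = Complex.exp (a * I) := by
    have := Complex.norm_mul_exp_arg_mul_I w
    rw [hw] at this
    simpa using this.symm
  have h1 : ∀ t : ℝ, G (Complex.exp (t * I) * w) = (fun s : ℝ => G (Complex.exp (s * I))) (t + a) := by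
    intro t
    show _ = G (Complex.exp (((t + a : ℝ) : ℂ) * I))
    rw [hwa, ← Complex.exp_add]
    congr 2
    push_cast; ring
  simp_rw [h1]
  rw [intervalIntegral.integral_comp_add_right (fun s : ℝ => G (Complex.exp (s * I))) a]
  have hper : Function.Periodic (fun s : ℝ => G (Complex.exp (s * I))) (2 * Real.pi) := by
    intro s
    show G (Complex.exp (((s + 2 * Real.pi : ℝ) : ℂ) * I)) = G (Complex.exp (s * I))
    congr 1
    have : ((s + 2 * Real.pi : ℝ) : ℂ) * I = s * I + 2 * Real.pi * I := by push_cast; ring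
    rw [this]
    exact Complex.exp_periodic _
  have := hper.intervalIntegral_add_eq (0 + a) 0
  rw [zero_add, zero_add] at this
  rw [zero_add, add_comm (2 * Real.pi) a]
  exact this

lemma circ (G : ℂ → ℝ) (hG : Continuous G) (h0 : ∀ w, 0 ≤ G w) :
    ∫⁻ ξ : E 1, ENNReal.ofReal (G (ξ 0)) ∂(sig 1) =
      ENNReal.ofReal (kap * ∫ t in (0 : ℝ)..2 * Real.pi, G (Complex.exp (t * I))) := by
  have hpi := Real.pi_pos
  have hc : Continuous (fun ξ : E 1 => G (ξ 0)) := hG.comp E1_coord_diff.continuous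
  have h1 := sig_average 1 (fun ξ : E 1 => ENNReal.ofReal (G (ξ 0)))
    (ENNReal.measurable_ofReal.comp hc.measurable)
  have h2 : ∫⁻ ξ : E 1, ∫⁻ t in Set.Ioc (0:ℝ) (2 * Real.pi),
      ENNReal.ofReal (G ((Complex.exp (t * I) • ξ) 0)) ∂volume ∂(sig 1) =
      ∫⁻ ξ : E 1, ENNReal.ofReal (∫ t in (0 : ℝ)..2 * Real.pi, G (Complex.exp (t * I))) ∂(sig 1) := by
    apply lintegral_congr_ae
    filter_upwards [sig_ae_norm (n := 1) le_rfl] with ξ hξ
    have hcc : Continuous (fun t : ℝ => G ((Complex.exp (t * I) • ξ) 0)) := by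
      have : (fun t : ℝ => G ((Complex.exp (t * I) • ξ) 0)) =
          fun t : ℝ => G (Complex.exp (t * I) * ξ 0) := by
        funext t; rfl
      rw [this]
      exact hG.comp (by fun_prop)
    rw [lintegral_Ioc_eq _ _ _ (by positivity) hcc (fun t => h0 _)]
    congr 1
    exact circ_per G (ξ 0) (by rw [← norm_E1]; exact hξ)
  rw [h2, lintegral_const] at h1
  have hint : 0 ≤ ∫ t in (0 : ℝ)..2 * Real.pi, G (Complex.exp (t * I)) :=
    intervalIntegral.integral_nonneg (by positivity) (fun t _ => h0 _)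
  have hne : ENNReal.ofReal (2 * Real.pi) ≠ 0 := by
    rw [Ne, ENNReal.ofReal_eq_zero, not_le]; positivity
  have h3 : sig 1 Set.univ = ENNReal.ofReal (sig 1 Set.univ).toReal :=
    (ENNReal.ofReal_toReal (measure_ne_top _ _)).symm
  have h4 : ENNReal.ofReal (2 * Real.pi) * ∫⁻ ξ : E 1, ENNReal.ofReal (G (ξ 0)) ∂(sig 1) =
      ENNReal.ofReal (2 * Real.pi) * ENNReal.ofReal (kap * ∫ t in (0 : ℝ)..2 * Real.pi, G (Complex.exp (t * I))) := by
    rw [h1, h3, ← ENNReal.ofReal_mul hint, ← ENNReal.ofReal_mul (by positivity)]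
    congr 1
    unfold kap
    generalize (∫ t in (0 : ℝ)..2 * Real.pi, G (Complex.exp (t * I))) = X
    field_simp
  exact (ENNReal.mul_right_inj hne ENNReal.ofReal_ne_top).1 h4

/-- extension of a function on the disc of radius `r` by radial retraction -/
noncomputable def retr (w : ℂ) : ℂ := w / ((max 1 ‖w‖ : ℝ) : ℂ)

lemma retr_cont : Continuous retr := by
  unfold retr
  apply Continuous.div continuous_id
  · exact Complex.continuous_ofReal.comp (continuous_const.max continuous_norm)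
  · intro w
    have : (0:ℝ) < max 1 ‖w‖ := lt_of_lt_of_le one_pos (le_max_left _ _)
    exact_mod_cast this.ne'

lemma retr_norm (w : ℂ) : ‖retr w‖ ≤ 1 := by
  unfold retr
  have : (0:ℝ) < max 1 ‖w‖ := lt_of_lt_of_le one_pos (le_max_left _ _)
  rw [norm_div, Complex.norm_real, Real.norm_of_nonneg this.le, div_le_one this]
  exact le_max_right _ _

lemma retr_eq {w : ℂ} (hw : ‖w‖ = 1) : retr w = w := by
  unfold retr
  rw [hw]; simp

/-- circle means versus sphere means for functions holomorphic on the disc -/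
lemma circ_disc (p : ℝ) (hp : 0 < p) (f : ℂ → ℂ) (hf : DifferentiableOn ℂ f (Metric.ball 0 1))
    (r : ℝ) (hr0 : 0 ≤ r) (hr1 : r < 1) :
    ∫⁻ ξ : E 1, ENNReal.ofReal (‖f (((r : ℂ) • ξ) 0)‖ ^ p) ∂(sig 1) =
      ENNReal.ofReal (kap * ∫ θ in (0:ℝ)..2 * Real.pi,
        ‖f ((r : ℂ) * Complex.exp ((θ : ℂ) * Complex.I))‖ ^ p) := by
  have hc : Continuous (fun w : ℂ => ‖f ((r : ℂ) * retr w)‖ ^ p) := by
    apply Continuous.rpow_const _ (fun _ => Or.inr hp.le)
    apply Continuous.norm
    have h1 : Continuous (fun w : ℂ => (r : ℂ) * retr w) := continuous_const.mul retr_cont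
    rw [← continuousOn_univ] at h1 ⊢
    apply hf.continuousOn.comp h1
    intro w _
    rw [Metric.mem_ball, dist_zero_right, norm_mul, Complex.norm_real, Real.norm_of_nonneg hr0]
    calc r * ‖retr w‖ ≤ r * 1 := by gcongr; exact retr_norm w
      _ < 1 := by linarith
  have h := circ (fun w : ℂ => ‖f ((r : ℂ) * retr w)‖ ^ p) hc (fun w => by positivity)
  have e1 : ∫⁻ ξ : E 1, ENNReal.ofReal (‖f (((r : ℂ) • ξ) 0)‖ ^ p) ∂(sig 1) =
      ∫⁻ ξ : E 1, ENNReal.ofReal (‖f ((r : ℂ) * retr (ξ 0))‖ ^ p) ∂(sig 1) := by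
    apply lintegral_congr_ae
    filter_upwards [sig_ae_norm (n := 1) le_rfl] with ξ hξ
    rw [retr_eq (by rw [← norm_E1]; exact hξ)]
    rfl
  rw [e1, h]
  congr 2
  apply intervalIntegral.integral_congr
  intro t _
  show ‖f ((r : ℂ) * retr (Complex.exp (t * I)))‖ ^ p = _
  rw [retr_eq (Complex.norm_exp_ofReal_mul_I t)]

end Pool.Agent.H795R2.Hp
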