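import Mathlib
import Pool.Agent.H795R2.Hp.D3

set_option autoImplicit false

open MeasureTheory Complex
open scoped ENNReal NNReal

namespace Pool.Agent.H795R2.Hp

open Pool.Agent.HpBall

lemma iter_mul (f : ℂ → ℂ) (w : ℂ) (k : ℕ) :
    iteratedDeriv k (fun z => f (w * z)) = fun z => w ^ k * iteratedDeriv k f (w * z) := by
  induction k with
  | zero => funext z; simp
  | succ k ih =>
    funext z
    rw [iteratedDeriv_succ, ih, deriv_const_mul_field]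
    have h := deriv_comp_mul_left w (iteratedDeriv k f) z
    rw [h, iteratedDeriv_succ, smul_eq_mul, pow_succ]
    ring

lemma tc_mul (f : ℂ → ℂ) (w : ℂ) (k : ℕ) : tc (fun z => f (z * w)) k = tc f k * w ^ k := by
  have h : (fun z => f (z * w)) = fun z => f (w * z) := by funext z; rw [mul_comm]
  unfold tc
  rw [h, iter_mul]
  simp only [mul_zero]
  ring

lemma fnorm_zero (p : ℝ) (hp : 0 < p) (x : ℕ → ℕ → ℂ) : fnorm p 0 x = 0 := by
  unfold fnorm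
  simp [Real.zero_rpow (by positivity : p / 2 ≠ 0)]

lemma fnorm_nonneg (p : ℝ) (L : ℕ) (x : ℕ → ℕ → ℂ) : 0 ≤ fnorm p L x := by
  unfold fnorm
  positivity

/-- the analysis bound -/
lemma ana_bound (n : ℕ) (hn : 1 ≤ n) (p : ℝ) (hp : 0 < p) (hp1 : p < 1)
    (pt : ℕ → ℕ → E n) (c C : ℝ) (hT : TreeFam n pt c C) (A : ℝ) (hA : 0 < A)
    (β : ℝ → ℝ) (a b : ℝ) (hβ : Bump β a b) : ∃ D : ℝ, 0 < D ∧
    ∀ g : E n → ℂ, DifferentiableOn ℂ g (Metric.ball 0 1) → ∀ M : ℝ, 0 < M →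
    (∀ r : ℝ, 0 ≤ r → r < 1 →
      ∫⁻ ξ, ENNReal.ofReal (‖g ((r : ℂ) • ξ)‖ ^ p) ∂(sig n) ≤ ENNReal.ofReal M) →
    ∀ L : ℕ, fnorm p L (fun l i => cut β (A * sc n l) g (pt l i)) ≤ D * M := by
  obtain ⟨D₁, hD₁, h1⟩ := weights_bound n hn p hp hp1 pt c C hT A hA β a b hβ
  obtain ⟨D, hD, h2⟩ := fnorm_of_weights p hp hp1 D₁ hD₁
  refine ⟨D, hD, ?_⟩
  intro g hg M hM hb L
  rcases Nat.eq_zero_or_pos L with h0 | hL
  · subst h0
    rw [fnorm_zero p hp]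
    positivity
  · obtain ⟨W, hW0, hW1, hW2⟩ := h1 g hg M hM hb L hL
    exact h2 L (fun l i => cut β (A * sc n l) g (pt l i)) W M hL hM hW0 hW1 hW2

lemma diff_E1 (f : ℂ → ℂ) (hf : DifferentiableOn ℂ f (Metric.ball 0 1)) :
    DifferentiableOn ℂ (fun z : E 1 => f (z 0)) (Metric.ball 0 1) := by
  apply hf.comp E1_coord_diff.differentiableOn
  intro z hz
  rw [Metric.mem_ball, dist_zero_right] at hz ⊢
  rwa [← norm_E1]

lemma cut_E1 (f : ℂ → ℂ) (l i : ℕ) :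
    cut bD (1 / 4 * sc 1 l) (fun z : E 1 => f (z 0)) (p1 l i) = cD f l i := by
  unfold cut cD
  rw [sc_one]
  congr 1
  funext k
  congr 1
  unfold hc
  have : (fun z : ℂ => f ((z • p1 l i) 0)) = fun z => f (z * om l i) := by
    funext z; rfl
  rw [this, tc_mul]

/-- the analysis bound on the disc -/
lemma disc_ana (p : ℝ) (hp : 0 < p) (hp1 : p < 1) : ∃ D : ℝ, 0 < D ∧
    ∀ f : ℂ → ℂ, DifferentiableOn ℂ f (Metric.ball 0 1) → ∀ M : ℝ, 0 < M →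
    (∀ r : ℝ, 0 ≤ r → r < 1 →
      ∫ θ in (0:ℝ)..2 * Real.pi, ‖f ((r : ℂ) * Complex.exp ((θ : ℂ) * Complex.I))‖ ^ p ≤ M) →
    ∀ L : ℕ, fnorm p L (cD f) ≤ D * M := by
  obtain ⟨D, hD, h⟩ := ana_bound 1 le_rfl p hp hp1 p1 4 (2 * Real.pi) tree_p1 (1 / 4) (by norm_num)
    bD (1 / 2) 2 bD_bump
  refine ⟨D * kap, mul_pos hD kap_pos, ?_⟩
  intro f hf M hM hb L
  have h2 := h (fun z : E 1 => f (z 0)) (diff_E1 f hf) (kap * M) (mul_pos kap_pos hM) (by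
    intro r hr0 hr1
    have h3 := circ_disc p hp f hf r hr0 hr1
    rw [h3]
    apply ENNReal.ofReal_le_ofReal
    exact mul_le_mul_of_nonneg_left (hb r hr0 hr1) kap_pos.le) L
  have e : (fun l i => cut bD (1 / 4 * sc 1 l) (fun z : E 1 => f (z 0)) (p1 l i)) = cD f := by
    funext l i
    exact cut_E1 f l i
  rw [e] at h2
  linarith [h2, show D * (kap * M) = D * kap * M by ring]

/-- the synthesis bound on the disc -/
lemma disc_syn (p : ℝ) (hp : 0 < p) (hp1 : p < 1) : ∃ D : ℝ, 0 < D ∧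
    ∀ (x : ℕ → ℕ → ℂ) (L : ℕ) (r : ℝ), 0 ≤ r → r ≤ 1 →
      ∫ θ in (0 : ℝ)..2 * Real.pi, ‖∑ l ∈ Finset.range L, ∑ i ∈ Finset.range (2 ^ l), x l i *
        dm vD l i ((r : ℂ) * Complex.exp ((θ : ℂ) * I))‖ ^ p ≤ D * fnorm p L x := by
  obtain ⟨K, hK, hsyn⟩ := synthesis_bound 1 le_rfl p hp hp1
  obtain ⟨B, hB, hdec⟩ := d1_decay K
  obtain ⟨D, hD, h⟩ := hsyn p1 4 (2 * Real.pi) tree_p1 (1 / 4) (by norm_num) B 4
  refine ⟨D / kap, div_pos hD kap_pos, ?_⟩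
  intro x L r hr0 hr1
  have h1 := h d1 (fun l i => (d1_diff l i).continuous) hdec
    (fun l m i j hlm r _ _ => d1_orth l m i j hlm r) x L r hr0 hr1
  set G : ℂ → ℝ := fun w => ‖∑ l ∈ Finset.range L, ∑ i ∈ Finset.range (2 ^ l), x l i *
        dm vD l i ((r : ℂ) * w)‖ ^ p with hG
  have hGc : Continuous G := by
    apply Continuous.rpow_const _ (fun _ => Or.inr hp.le)
    apply Continuous.norm
    apply continuous_finsetSum _ (fun l _ => continuous_finsetSum _ (fun i _ => ?_))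
    exact continuous_const.mul ((dm_diff vD_bump l i).continuous.comp (continuous_const.mul continuous_id))
  have h2 := circ G hGc (fun w => by positivity)
  have e1 : ∫⁻ ξ : E 1, ENNReal.ofReal (‖∑ l ∈ Finset.range L, ∑ i ∈ Finset.range (2 ^ l),
        x l i * d1 l i ((r : ℂ) • ξ)‖ ^ p) ∂(sig 1) = ∫⁻ ξ : E 1, ENNReal.ofReal (G (ξ 0)) ∂(sig 1) := rfl
  rw [e1, h2] at h1
  rw [ENNReal.ofReal_le_ofReal_iff (mul_nonneg hD.le (fnorm_nonneg _ _ _))] at h1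
  rw [div_mul_eq_mul_div, le_div_iff₀ kap_pos, mul_comm]
  exact h1

end Pool.Agent.H795R2.Hp
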