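import Mathlib
import Pool.Agent.H795R2.Hp.D4

set_option autoImplicit false

open MeasureTheory Complex
open scoped ENNReal NNReal

namespace Pool.Agent.H795R2.Hp

open Pool.Agent.HpBall

/-- all the data on the side of the ball -/
structure BallData (n : ℕ) (p : ℝ) where
  pt : ℕ → ℕ → E n
  A : ℝ
  β : ℝ → ℝ
  a : ℝ
  b : ℝ
  Ψ : ℕ → ℕ → E n → ℂ
  B : ℝ
  D : ℝ
  hA : 0 < A
  hB : 0 ≤ B
  hD : 0 < D
  hβ : Bump β a b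
  hpt : ∀ l i, ‖pt l i‖ = 1
  hd : ∀ l i, Differentiable ℂ (Ψ l i)
  hbi : ∀ l i j, i < 2 ^ l → j < 2 ^ l → Ψ l i (pt l j) = if i = j then 1 else 0
  hz : ∀ (l m i k : ℕ) (ζ : E n), l ≠ m → (β ((k : ℝ) / (A * sc n m)) : ℂ) * hc (Ψ l i) k ζ = 0
  ho : ∀ (l i k : ℕ) (ζ : E n),
      (β ((k : ℝ) / (A * sc n l)) : ℂ) * hc (Ψ l i) k ζ = hc (Ψ l i) k ζ
  hgrow : ∀ l i, i < 2 ^ l → ∀ z : E n, ‖z‖ ≤ 1 → ‖Ψ l i z‖ ≤ B * ‖z‖ ^ (sc n l)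
  hsyn : ∀ (x : ℕ → ℕ → ℂ) (L : ℕ) (r : ℝ), 0 ≤ r → r ≤ 1 →
      ∫⁻ ξ, ENNReal.ofReal (‖∑ l ∈ Finset.range L, ∑ i ∈ Finset.range (2 ^ l),
        x l i * Ψ l i ((r : ℂ) • ξ)‖ ^ p) ∂(sig n) ≤ ENNReal.ofReal (D * fnorm p L x)
  hana : ∀ g : E n → ℂ, DifferentiableOn ℂ g (Metric.ball 0 1) → ∀ M : ℝ, 0 < M →
    (∀ r : ℝ, 0 ≤ r → r < 1 →
      ∫⁻ ξ, ENNReal.ofReal (‖g ((r : ℂ) • ξ)‖ ^ p) ∂(sig n) ≤ ENNReal.ofReal M) →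
    ∀ L : ℕ, fnorm p L (fun l i => cut β (A * sc n l) g (pt l i)) ≤ D * M

lemma exists_ballData (n : ℕ) (hn : 1 ≤ n) (p : ℝ) (hp : 0 < p) (hp1 : p < 1) :
    Nonempty (BallData n p) := by
  obtain ⟨pt, c, C, hT⟩ := exists_tree n hn
  obtain ⟨K, hK, hsyn⟩ := synthesis_bound n hn p hp hp1
  obtain ⟨A, B, β, a, b, Ψ, hA, hB, hβ, hd, hdec, horth, hbi, hz, ho, hgrow⟩ :=
    molecules n hn pt c C hT K hK
  obtain ⟨D1, hD1, h1⟩ := hsyn pt c C hT A hA B 1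
  have hs := h1 Ψ (fun l i => (hd l i).continuous) hdec horth
  obtain ⟨D2, hD2, h2⟩ := ana_bound n hn p hp hp1 pt c C hT A hA β a b hβ
  exact ⟨{
    pt := pt, A := A, β := β, a := a, b := b, Ψ := Ψ, B := B, D := max D1 D2
    hA := hA, hB := hB, hD := lt_of_lt_of_le hD1 (le_max_left _ _), hβ := hβ
    hpt := hT.unit, hd := hd, hbi := hbi, hz := hz, ho := ho, hgrow := hgrow
    hsyn := fun x L r hr0 hr1 => (hs x L r hr0 hr1).trans (ENNReal.ofReal_le_ofReal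
      (mul_le_mul_of_nonneg_right (le_max_left _ _) (fnorm_nonneg _ _ _)))
    hana := fun g hg M hM hb L => (h2 g hg M hM hb L).trans
      (mul_le_mul_of_nonneg_right (le_max_right _ _) hM.le) }⟩

variable {n : ℕ} {p : ℝ}

/-- the embedding -/
noncomputable def TT (d : BallData n p) (f : ℂ → ℂ) (z : Fin n → ℂ) : ℂ :=
  f 0 + ∑' l, lev d.Ψ (cD f) l (WithLp.toLp 2 z)

/-- the coefficients on the ball -/
noncomputable def cB (d : BallData n p) (g : (Fin n → ℂ) → ℂ) (l i : ℕ) : ℂ :=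
  cut d.β (d.A * sc n l) (fun z : E n => g (WithLp.ofLp z)) (d.pt l i)

/-- the projection -/
noncomputable def PP (d : BallData n p) (g : (Fin n → ℂ) → ℂ) (w : ℂ) : ℂ :=
  g 0 + ∑' l, lev (dm vD) (cB d g) l w

/-- disc norm bound -/
def dB (p : ℝ) (f : ℂ → ℂ) (M : ℝ) : Prop :=
  ∀ r : ℝ, 0 ≤ r → r < 1 →
    ∫ θ in (0:ℝ)..2 * Real.pi, ‖f ((r : ℂ) * Complex.exp ((θ : ℂ) * Complex.I))‖ ^ p ≤ M

/-- ball norm bound -/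
def bB (n : ℕ) (p : ℝ) (f : (Fin n → ℂ) → ℂ) (M : ℝ) : Prop :=
  ∀ r : ℝ, 0 ≤ r → r < 1 →
    ∫ z : Fin n → ℂ, ‖f (((r / Real.sqrt (∑ i, ‖z i‖ ^ 2) : ℝ) : ℂ) • z)‖ ^ p
      * Real.exp (-(∑ i, ‖z i‖ ^ 2)) ≤ M

lemma dB_mono {p : ℝ} {f : ℂ → ℂ} {M N : ℝ} (h : dB p f M) (hMN : M ≤ N) : dB p f N :=
  fun r h0 h1 => (h r h0 h1).trans hMN

lemma bB_mono {n : ℕ} {p : ℝ} {f : (Fin n → ℂ) → ℂ} {M N : ℝ} (h : bB n p f M) (hMN : M ≤ N) :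
    bB n p f N := fun r h0 h1 => (h r h0 h1).trans hMN

lemma dB_zero {p : ℝ} {f : ℂ → ℂ} {M : ℝ} (h : dB p f M) : 2 * Real.pi * ‖f 0‖ ^ p ≤ M := by
  have := h 0 le_rfl one_pos
  simpa using this

lemma dB_nonneg {p : ℝ} {f : ℂ → ℂ} {M : ℝ} (h : dB p f M) : 0 ≤ M :=
  le_trans (by positivity) (dB_zero h)

lemma bB_nonneg {n : ℕ} {p : ℝ} {f : (Fin n → ℂ) → ℂ} {M : ℝ} (h : bB n p f M) : 0 ≤ M :=
  le_trans (integral_nonneg (fun z => by positivity)) (h 0 le_rfl one_pos)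

lemma bB_lint {n : ℕ} (hn : 1 ≤ n) {p : ℝ} (hp : 0 < p) {f : (Fin n → ℂ) → ℂ}
    (hf : DifferentiableOn ℂ f {z : Fin n → ℂ | ∑ i, ‖z i‖ ^ 2 < 1}) {M : ℝ} (h : bB n p f M)
    (r : ℝ) (hr0 : 0 ≤ r) (hr1 : r < 1) :
    ∫⁻ ξ : E n, ENNReal.ofReal (‖f (WithLp.ofLp ((r : ℂ) • ξ))‖ ^ p) ∂(sig n) ≤ ENNReal.ofReal M := by
  rw [← transfer n hn p hp f hf r hr0 hr1]
  exact ENNReal.ofReal_le_ofReal (h r hr0 hr1)

/-- total mass -/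
noncomputable def sg (n : ℕ) : ℝ := (sig n Set.univ).toReal

lemma sg_pos (n : ℕ) : 0 < sg n :=
  ENNReal.toReal_pos sig_univ_pos.ne' (measure_ne_top _ _)

lemma bB_zero {n : ℕ} (hn : 1 ≤ n) {p : ℝ} (hp : 0 < p) {f : (Fin n → ℂ) → ℂ}
    (hf : DifferentiableOn ℂ f {z : Fin n → ℂ | ∑ i, ‖z i‖ ^ 2 < 1}) {M : ℝ} (h : bB n p f M) :
    sg n * ‖f 0‖ ^ p ≤ M := by
  have h1 := bB_lint hn hp hf h 0 le_rfl one_pos
  have e : ∀ ξ : E n, WithLp.ofLp (((0:ℝ) : ℂ) • ξ) = 0 := by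
    intro ξ; simp
  simp_rw [e] at h1
  rw [lintegral_const] at h1
  have h3 : sig n Set.univ = ENNReal.ofReal (sg n) :=
    (ENNReal.ofReal_toReal (measure_ne_top _ _)).symm
  rw [h3, ← ENNReal.ofReal_mul (by positivity), ENNReal.ofReal_le_ofReal_iff (bB_nonneg h)] at h1
  linarith

end Pool.Agent.H795R2.Hp
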