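import Mathlib
import Pool.Agent.H795R2.Hp.Fin1

set_option autoImplicit false

open MeasureTheory Complex
open scoped ENNReal NNReal

namespace Pool.Agent.H795R2.Hp

open Pool.Agent.HpBall

variable {n : ℕ} {p : ℝ}

/-- package: LocSum for a sequence with bounded fnorm -/
lemma locT (hn : 1 ≤ n) (hp : 0 < p) (d : BallData n p) (x : ℕ → ℕ → ℂ) (X : ℝ) (hX : 0 ≤ X)
    (hx : ∀ L, fnorm p L x ≤ X) : LocSum (lev d.Ψ x) :=
  lev_locsum hn p hp d.Ψ d.B d.hB d.hgrow x X hX hx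

lemma toLp_norm_lt {z : Fin n → ℂ} (hz : ∑ i, ‖z i‖ ^ 2 < 1) : ‖(WithLp.toLp 2 z : E n)‖ < 1 := by
  rw [EuclideanSpace.norm_eq]
  rw [show (1:ℝ) = Real.sqrt 1 by simp]
  exact Real.sqrt_lt_sqrt (by positivity) hz

lemma TT_lin (hn : 1 ≤ n) (hp : 0 < p) (d : BallData n p) {f g : ℂ → ℂ} (a b : ℂ)
    (hf : DifferentiableOn ℂ f (Metric.ball 0 1)) (hg : DifferentiableOn ℂ g (Metric.ball 0 1))
    (X Y : ℝ) (hX : 0 ≤ X) (hY : 0 ≤ Y)
    (hfx : ∀ L, fnorm p L (cD f) ≤ X) (hgx : ∀ L, fnorm p L (cD g) ≤ Y)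
    (z : Fin n → ℂ) (hz : ∑ i, ‖z i‖ ^ 2 < 1) :
    TT d (a • f + b • g) z = a * TT d f z + b * TT d g z := by
  have s1 := (locT hn hp d (cD f) X hX hfx).summable (toLp_norm_lt hz)
  have s2 := (locT hn hp d (cD g) Y hY hgx).summable (toLp_norm_lt hz)
  unfold TT
  have h1 : ∀ l, lev d.Ψ (cD (a • f + b • g)) l (WithLp.toLp 2 z) =
      a * lev d.Ψ (cD f) l (WithLp.toLp 2 z) + b * lev d.Ψ (cD g) l (WithLp.toLp 2 z) := by
    intro l
    exact lev_lin d.Ψ (cD f) (cD g) (cD (a • f + b • g)) a b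
      (fun l i _ => cD_lin hf hg a b l i) l _
  simp_rw [h1]
  rw [(s1.mul_left a).tsum_add (s2.mul_left b), tsum_mul_left, tsum_mul_left]
  simp only [Pi.add_apply, Pi.smul_apply, smul_eq_mul]
  ring

lemma summ_dlev (hp : 0 < p) (x : ℕ → ℕ → ℂ) (X : ℝ) (hX : 0 ≤ X)
    (hx : ∀ L, fnorm p L x ≤ X) {w : ℂ} (hw : ‖w‖ < 1) : Summable (fun l => lev (dm vD) x l w) := by
  obtain ⟨u, hu, hb⟩ := dlev_bound vD_bump p hp x X hX hx ‖w‖ (norm_nonneg _) hw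
  exact Summable.of_norm_bounded hu (fun l => hb l w le_rfl)

lemma PP_lin (hp : 0 < p) (d : BallData n p) {f g : (Fin n → ℂ) → ℂ} (a b : ℂ)
    (hf : DifferentiableOn ℂ f {z : Fin n → ℂ | ∑ i, ‖z i‖ ^ 2 < 1})
    (hg : DifferentiableOn ℂ g {z : Fin n → ℂ | ∑ i, ‖z i‖ ^ 2 < 1})
    (X Y : ℝ) (hX : 0 ≤ X) (hY : 0 ≤ Y)
    (hfx : ∀ L, fnorm p L (cB d f) ≤ X) (hgx : ∀ L, fnorm p L (cB d g) ≤ Y)
    (w : ℂ) (hw : ‖w‖ < 1) :
    PP d (a • f + b • g) w = a * PP d f w + b * PP d g w := by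
  have s1 := summ_dlev hp (cB d f) X hX hfx hw
  have s2 := summ_dlev hp (cB d g) Y hY hgx hw
  have hf' := (transfer_diff n f).1 hf
  have hg' := (transfer_diff n g).1 hg
  unfold PP
  have h1 : ∀ l, lev (dm vD) (cB d (a • f + b • g)) l w =
      a * lev (dm vD) (cB d f) l w + b * lev (dm vD) (cB d g) l w := by
    intro l
    refine lev_lin (dm vD) (cB d f) (cB d g) (cB d (a • f + b • g)) a b (fun l i _ => ?_) l _
    exact cut_lin d.hβ (mul_pos d.hA (sc_pos n l)) hf' hg' a b (d.hpt l i)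
  simp_rw [h1]
  rw [(s1.mul_left a).tsum_add (s2.mul_left b), tsum_mul_left, tsum_mul_left]
  simp only [Pi.add_apply, Pi.smul_apply, smul_eq_mul]
  ring

lemma TT_diff (hn : 1 ≤ n) (hp : 0 < p) (d : BallData n p) (f : ℂ → ℂ) (X : ℝ) (hX : 0 ≤ X)
    (hfx : ∀ L, fnorm p L (cD f) ≤ X) :
    DifferentiableOn ℂ (TT d f) {z : Fin n → ℂ | ∑ i, ‖z i‖ ^ 2 < 1} := by
  rw [transfer_diff]
  have h := (locT hn hp d (cD f) X hX hfx).differentiableOn (fun l => lev_diff d.Ψ d.hd (cD f) l)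
  exact h.const_add (f 0)

lemma rpow_add_le_one (hp : 0 < p) (hp1 : p < 1) (u v : ℂ) :
    ‖u + v‖ ^ p ≤ ‖u‖ ^ p + ‖v‖ ^ p := by
  calc ‖u + v‖ ^ p ≤ (‖u‖ + ‖v‖) ^ p := by
        apply Real.rpow_le_rpow (norm_nonneg _) (norm_add_le _ _) hp.le
    _ ≤ ‖u‖ ^ p + ‖v‖ ^ p := Real.rpow_add_le_add_rpow (norm_nonneg _) (norm_nonneg _) hp.le hp1.le

lemma TT_bound (hn : 1 ≤ n) (hp : 0 < p) (hp1 : p < 1) (d : BallData n p) (f : ℂ → ℂ) (X : ℝ)
    (hX : 0 ≤ X) (hfx : ∀ L, fnorm p L (cD f) ≤ X) (r : ℝ) (hr0 : 0 ≤ r) (hr1 : r < 1) :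
    ∫ z : Fin n → ℂ, ‖TT d f (((r / Real.sqrt (∑ i, ‖z i‖ ^ 2) : ℝ) : ℂ) • z)‖ ^ p
            * Real.exp (-(∑ i, ‖z i‖ ^ 2)) ≤ sg n * ‖f 0‖ ^ p + d.D * X := by
  have hT := transfer n hn p hp (TT d f) (TT_diff hn hp d f X hX hfx) r hr0 hr1
  have hloc := locT hn hp d (cD f) X hX hfx
  have h1 := lev_bound hn p hp d.Ψ d.hd d.D d.hD.le d.hsyn (cD f) X hfx hloc r hr0 hr1
  have h2 : ∫⁻ ξ : E n, ENNReal.ofReal (‖TT d f (WithLp.ofLp ((r : ℂ) • ξ))‖ ^ p) ∂(sig n) ≤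
      ENNReal.ofReal (sg n * ‖f 0‖ ^ p + d.D * X) := by
    calc ∫⁻ ξ : E n, ENNReal.ofReal (‖TT d f (WithLp.ofLp ((r : ℂ) • ξ))‖ ^ p) ∂(sig n)
        ≤ ∫⁻ ξ : E n, (ENNReal.ofReal (‖f 0‖ ^ p) +
          ENNReal.ofReal (‖∑' l, lev d.Ψ (cD f) l ((r : ℂ) • ξ)‖ ^ p)) ∂(sig n) := by
          apply lintegral_mono
          intro ξ
          beta_reduce
          rw [← ENNReal.ofReal_add (by positivity) (by positivity)]
          exact ENNReal.ofReal_le_ofReal (rpow_add_le_one hp hp1 _ _)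
      _ = ENNReal.ofReal (‖f 0‖ ^ p) * sig n Set.univ +
          ∫⁻ ξ : E n, ENNReal.ofReal (‖∑' l, lev d.Ψ (cD f) l ((r : ℂ) • ξ)‖ ^ p) ∂(sig n) := by
          rw [lintegral_add_left measurable_const, lintegral_const]
      _ ≤ ENNReal.ofReal (sg n * ‖f 0‖ ^ p) + ENNReal.ofReal (d.D * X) := by
          apply add_le_add _ h1
          have h3 : sig n Set.univ = ENNReal.ofReal (sg n) :=
            (ENNReal.ofReal_toReal (measure_ne_top _ _)).symm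
          rw [h3, ← ENNReal.ofReal_mul (by positivity), mul_comm]
      _ = _ := by
          rw [ENNReal.ofReal_add]
          · have := sg_pos n; positivity
          · have := d.hD; positivity
  rw [← hT] at h2
  rwa [ENNReal.ofReal_le_ofReal_iff] at h2
  have := sg_pos n
  have := d.hD
  positivity

lemma PP_diff (hp : 0 < p) (d : BallData n p) (g : (Fin n → ℂ) → ℂ) (X : ℝ) (hX : 0 ≤ X)
    (hfx : ∀ L, fnorm p L (cB d g) ≤ X) : DifferentiableOn ℂ (PP d g) (Metric.ball 0 1) := by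
  have h := dsum_diff vD_bump p hp (cB d g) X hX hfx
  exact h.const_add (g 0)

lemma PP_bound (hp : 0 < p) (hp1 : p < 1) (d : BallData n p) (D : ℝ) (hD : 0 ≤ D)
    (hsyn : ∀ (x : ℕ → ℕ → ℂ) (L : ℕ) (r : ℝ), 0 ≤ r → r ≤ 1 →
      ∫ θ in (0 : ℝ)..2 * Real.pi, ‖∑ l ∈ Finset.range L, ∑ i ∈ Finset.range (2 ^ l), x l i *
        dm vD l i ((r : ℂ) * Complex.exp ((θ : ℂ) * I))‖ ^ p ≤ D * fnorm p L x)
    (g : (Fin n → ℂ) → ℂ) (X : ℝ)
    (hX : 0 ≤ X) (hfx : ∀ L, fnorm p L (cB d g) ≤ X) (r : ℝ) (hr0 : 0 ≤ r) (hr1 : r < 1) :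
    ∫ θ in (0:ℝ)..2 * Real.pi, ‖PP d g ((r : ℂ) * Complex.exp ((θ : ℂ) * Complex.I))‖ ^ p
            ≤ 2 * Real.pi * ‖g 0‖ ^ p + D * X := by
  have h1 := dlev_integral vD_bump p hp D hD hsyn (cB d g) X hX hfx r hr0 hr1
  have hc : Continuous (fun θ : ℝ => ∑' l, lev (dm vD) (cB d g) l ((r : ℂ) * Complex.exp ((θ : ℂ) * I))) := by
    have hS := (dsum_diff vD_bump p hp (cB d g) X hX hfx).continuousOn
    have h2 : Continuous (fun θ : ℝ => (r : ℂ) * Complex.exp ((θ : ℂ) * I)) := by fun_prop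
    rw [← continuousOn_univ] at h2 ⊢
    apply hS.comp h2
    intro θ _
    rw [Metric.mem_ball, dist_zero_right, norm_mul, Complex.norm_exp_ofReal_mul_I, mul_one,
      Complex.norm_real, Real.norm_of_nonneg hr0]
    exact hr1
  have hpi := Real.pi_pos
  have hcp : Continuous (fun θ : ℝ => ‖∑' l, lev (dm vD) (cB d g) l ((r : ℂ) * Complex.exp ((θ : ℂ) * I))‖ ^ p) :=
    hc.norm.rpow_const (fun _ => Or.inr hp.le)
  have hcp2 : Continuous (fun θ : ℝ => ‖PP d g ((r : ℂ) * Complex.exp ((θ : ℂ) * I))‖ ^ p) :=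
    ((continuous_const.add hc).norm).rpow_const (fun _ => Or.inr hp.le)
  calc ∫ θ in (0:ℝ)..2 * Real.pi, ‖PP d g ((r : ℂ) * Complex.exp ((θ : ℂ) * Complex.I))‖ ^ p
      ≤ ∫ θ in (0:ℝ)..2 * Real.pi, (‖g 0‖ ^ p +
        ‖∑' l, lev (dm vD) (cB d g) l ((r : ℂ) * Complex.exp ((θ : ℂ) * I))‖ ^ p) := by
        apply intervalIntegral.integral_mono_on (by positivity) (hcp2.intervalIntegrable _ _)
          ((continuous_const.add hcp).intervalIntegrable _ _)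
        intro θ _
        exact rpow_add_le_one hp hp1 _ _
    _ = 2 * Real.pi * ‖g 0‖ ^ p +
        ∫ θ in (0:ℝ)..2 * Real.pi, ‖∑' l, lev (dm vD) (cB d g) l ((r : ℂ) * Complex.exp ((θ : ℂ) * I))‖ ^ p := by
        rw [intervalIntegral.integral_add (continuous_const.intervalIntegrable _ _)
          (hcp.intervalIntegrable _ _)]
        simp
    _ ≤ _ := by linarith

lemma PT_id (hn : 1 ≤ n) (hp : 0 < p) (d : BallData n p) (f : ℂ → ℂ)
    (hf : DifferentiableOn ℂ f (Metric.ball 0 1)) (X : ℝ) (hX : 0 ≤ X)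
    (hfx : ∀ L, fnorm p L (cD f) ≤ X) (w : ℂ) (hw : ‖w‖ < 1) : PP d (TT d f) w = f w := by
  have hloc := locT hn hp d (cD f) X hX hfx
  have h0 : ∀ l, lev d.Ψ (cD f) l (0 : E n) = 0 := by
    intro l
    unfold lev
    apply Finset.sum_eq_zero
    intro i hi
    rw [Finset.mem_range] at hi
    have h := d.hgrow l i hi 0 (by simp)
    rw [norm_zero, Real.zero_rpow (sc_pos n l).ne', mul_zero] at h
    rw [norm_le_zero_iff.1 h, mul_zero]
  have hT0 : TT d f 0 = f 0 := by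
    unfold TT
    have : (WithLp.toLp 2 (0 : Fin n → ℂ) : E n) = 0 := rfl
    rw [this]
    simp_rw [h0]
    simp
  have hc : ∀ m j, j < 2 ^ m → cB d (TT d f) m j = cD f m j := by
    intro m j hj
    exact cut_synth d.hβ d.hA d.pt d.hpt d.Ψ d.hd d.hbi d.hz d.ho (cD f) hloc (f 0) m j hj
  unfold PP
  rw [hT0]
  have hl : ∀ l, lev (dm vD) (cB d (TT d f)) l w = lev (dm vD) (cD f) l w := by
    intro l
    unfold lev
    apply Finset.sum_congr rfl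
    intro i hi
    rw [Finset.mem_range] at hi
    rw [hc l i hi]
  simp_rw [hl]
  have h := disc_frame bD vD bD_bump vD_bump bD_sum vD_one f hf w hw
  have h2 : HasSum (fun l => lev (dm vD) (cD f) l w) (f w - f 0) := h
  rw [h2.tsum_eq]
  ring

end Pool.Agent.H795R2.Hp
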