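import Mathlib
import Pool.Agent.H795R2.Hp.Br
import Pool.Agent.HpBall2.MainC

set_option autoImplicit false

open MeasureTheory
open scoped ENNReal NNReal MeasureTheory

namespace Pool.Agent.H795R2.Br

open Pool.Agent.HpBall Pool.Agent.HpBall2

variable {V : Type} [NormedAddCommGroup V] [InnerProductSpace ℂ V] [FiniteDimensional ℂ V]
  [MeasurableSpace V] [BorelSpace V]

omit [FiniteDimensional ℂ V] in
lemma ind_meas {F : V → ℂ} (hF : DifferentiableOn ℂ F (Metric.ball (0 : V) 1)) :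
    Measurable ((Metric.ball (0 : V) 1).indicator F) := by
  classical
  have h := hF.continuousOn.measurable_piecewise (g := (0 : V → ℂ)) continuousOn_const
    Metric.isOpen_ball.measurableSet
  rw [Set.piecewise_eq_indicator] at h
  exact h

/-- the quasi-norm of the frozen statement -/
noncomputable def NV (p : ℝ) (m : ℕ) (F : V → ℂ) : ℝ≥0∞ :=
  ⨆ r ∈ Set.Ico (0 : ℝ) 1, ∫⁻ ζ in Metric.sphere (0 : V) 1, ‖F ((r : ℂ) • ζ)‖ₑ ^ p
    ∂(μH[(m : ℝ)] : Measure V)

lemma NV_eq {n m : ℕ} (hm : 2 * n = m + 1) (φ : E n ≃ₗᵢ[ℂ] V) (p : ℝ) (hp : 0 < p) :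
    ∃ c : ℝ≥0∞, 0 < c ∧ c ≠ ⊤ ∧ ∀ F : V → ℂ, DifferentiableOn ℂ F (Metric.ball (0 : V) 1) →
      NV p m F = c * NF n p (fun z => F (φ z)) := by
  obtain ⟨c, hc0, hct, hc⟩ := bridge hm φ
  refine ⟨c, hc0, hct, ?_⟩
  intro F hF
  unfold NV NF
  rw [ENNReal.mul_iSup]
  apply iSup_congr
  intro r
  rw [ENNReal.mul_iSup]
  apply iSup_congr
  intro hr
  set h : V → ℝ≥0∞ := fun ζ => ‖(Metric.ball (0 : V) 1).indicator F ((r : ℂ) • ζ)‖ₑ ^ p with hh
  have hmeas : Measurable h := by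
    apply Measurable.pow_const
    exact ((ind_meas hF).comp (measurable_const_smul _)).enorm
  have hmem : ∀ ζ : V, ‖ζ‖ = 1 → (r : ℂ) • ζ ∈ Metric.ball (0 : V) 1 := by
    intro ζ hζ
    rw [mem_ball_zero_iff, norm_smul, hζ, mul_one, Complex.norm_real, Real.norm_of_nonneg hr.1]
    exact hr.2
  have e1 : ∫⁻ ζ in Metric.sphere (0 : V) 1, ‖F ((r : ℂ) • ζ)‖ₑ ^ p ∂(μH[(m : ℝ)] : Measure V) =
      ∫⁻ ζ in Metric.sphere (0 : V) 1, h ζ ∂(μH[(m : ℝ)] : Measure V) := by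
    apply setLIntegral_congr_fun Metric.isClosed_sphere.measurableSet
    intro ζ hζ
    rw [mem_sphere_zero_iff_norm] at hζ
    show ‖F ((r : ℂ) • ζ)‖ₑ ^ p = ‖(Metric.ball (0 : V) 1).indicator F ((r : ℂ) • ζ)‖ₑ ^ p
    rw [Set.indicator_of_mem (hmem ζ hζ)]
  rw [e1, hc h hmeas]
  congr 1
  apply lintegral_congr_ae
  have hn : 1 ≤ n := by omega
  filter_upwards [sig_ae_norm hn] with ξ hξ
  have h2 : ‖φ ξ‖ = 1 := by rw [LinearIsometryEquiv.norm_map]; exact hξ
  show ‖(Metric.ball (0 : V) 1).indicator F ((r : ℂ) • φ ξ)‖ₑ ^ p = _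
  rw [Set.indicator_of_mem (hmem _ h2), map_smul, ← ENNReal.ofReal_rpow_of_nonneg (norm_nonneg _) hp.le,
    ofReal_norm]

lemma NF_lt_top_of_two {n : ℕ} (hn : 1 ≤ n) (p : ℝ) (hp : 0 < p) (hp1 : p ≤ 1) (g : E n → ℂ)
    (h2 : ∀ (r : ℝ), 0 ≤ r → r < 1 →
        ∫⁻ ξ, ENNReal.ofReal (‖g ((r : ℂ) • ξ)‖ ^ (2 : ℝ)) ∂(sig n) ≤ 1) : NF n p g < ⊤ := by
  have h3 : NF n p g ≤ sig n Set.univ + 1 := by
    unfold NF
    refine iSup₂_le fun r hr => ?_
    calc ∫⁻ ξ, ENNReal.ofReal (‖g ((r : ℂ) • ξ)‖ ^ p) ∂(sig n)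
        ≤ ∫⁻ ξ, (1 + ENNReal.ofReal (‖g ((r : ℂ) • ξ)‖ ^ (2 : ℝ))) ∂(sig n) := by
          apply lintegral_mono
          intro ξ
          beta_reduce
          rw [← ENNReal.ofReal_one, ← ENNReal.ofReal_add zero_le_one (by positivity)]
          apply ENNReal.ofReal_le_ofReal
          set x := ‖g ((r : ℂ) • ξ)‖ with hx
          have hx0 : 0 ≤ x := norm_nonneg _
          rcases le_total x 1 with h | h
          · have := Real.rpow_le_one hx0 h hp.le
            have := Real.rpow_nonneg hx0 2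
            linarith
          · have := Real.rpow_le_rpow_of_exponent_le h (by linarith : p ≤ 2)
            linarith
      _ = sig n Set.univ + ∫⁻ ξ, ENNReal.ofReal (‖g ((r : ℂ) • ξ)‖ ^ (2 : ℝ)) ∂(sig n) := by
          rw [lintegral_add_left measurable_const, lintegral_one]
      _ ≤ _ := by
          gcongr
          exact h2 r hr.1 hr.2
  exact lt_of_le_of_lt h3 (ENNReal.add_lt_top.2 ⟨measure_lt_top _ _, ENNReal.one_lt_top⟩)

theorem final {n m : ℕ} (hn : 1 ≤ n) (hm : 2 * n = m + 1) (φ : E n ≃ₗᵢ[ℂ] V) (p : ℝ) (hp : 0 < p)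
    (hp1 : p ≤ 1) :
    ∃ e : ℕ → (V → ℂ),
      (∀ k, DifferentiableOn ℂ (e k) (Metric.ball (0 : V) 1) ∧ NV p m (e k) < ⊤) ∧
      ∀ f : V → ℂ, DifferentiableOn ℂ f (Metric.ball (0 : V) 1) → NV p m f < ⊤ →
        ∃! a : ℕ → ℂ, ∀ ε : ENNReal, 0 < ε → ∃ F : Finset ℕ, ∀ G : Finset ℕ, F ⊆ G →
          NV p m (fun z => f z - ∑ k ∈ G, a k * e k z) < ε := by
  obtain ⟨c, hc0, hct, hc⟩ := NV_eq hm φ p hp
  obtain ⟨e, he1, he2, -, he4⟩ := main_basis n hn p hp hp1
  have hsymm : ∀ z : V, φ (φ.symm z) = z := φ.apply_symm_apply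
  have hmaps : Set.MapsTo φ.symm (Metric.ball (0 : V) 1) (Metric.ball (0 : E n) 1) := by
    intro z hz
    rw [mem_ball_zero_iff] at hz ⊢
    rwa [LinearIsometryEquiv.norm_map]
  have hmaps' : Set.MapsTo φ (Metric.ball (0 : E n) 1) (Metric.ball (0 : V) 1) := by
    intro z hz
    rw [mem_ball_zero_iff] at hz ⊢
    rwa [LinearIsometryEquiv.norm_map]
  have hds : Differentiable ℂ (φ.symm : V → E n) := φ.symm.toContinuousLinearEquiv.differentiable
  have hdf : Differentiable ℂ (φ : E n → V) := φ.toContinuousLinearEquiv.differentiable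
  have hde : ∀ k, DifferentiableOn ℂ (fun z : V => e k (φ.symm z)) (Metric.ball (0 : V) 1) :=
    fun k => (he1 k).comp hds.differentiableOn hmaps
  refine ⟨fun k z => e k (φ.symm z), ?_, ?_⟩
  · intro k
    refine ⟨hde k, ?_⟩
    rw [hc _ (hde k)]
    simp only [LinearIsometryEquiv.symm_apply_apply]
    exact ENNReal.mul_lt_top hct.lt_top (NF_lt_top_of_two hn p hp hp1 (e k) (he2 k))
  · intro f hf hft
    set g : E n → ℂ := fun z => f (φ z) with hg
    have hgd : DifferentiableOn ℂ g (Metric.ball (0 : E n) 1) := hf.comp hdf.differentiableOn hmaps'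
    have hgt : NF n p g ≠ ⊤ := by
      intro h
      rw [hc f hf] at hft
      change c * NF n p g < ⊤ at hft
      rw [h, ENNReal.mul_top hc0.ne'] at hft
      exact lt_irrefl _ hft
    have hkey : ∀ (a : ℕ → ℂ) (G : Finset ℕ),
        NV p m (fun z => f z - ∑ k ∈ G, a k * e k (φ.symm z)) =
          c * NF n p (fun z => g z - ∑ k ∈ G, a k * e k z) := by
      intro a G
      have hd : DifferentiableOn ℂ (fun z => f z - ∑ k ∈ G, a k * e k (φ.symm z))
          (Metric.ball (0 : V) 1) := by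
        apply hf.sub
        apply DifferentiableOn.fun_sum
        intro k _
        exact (hde k).const_mul _
      rw [hc _ hd]
      simp only [LinearIsometryEquiv.symm_apply_apply, hg]
    have hiff : ∀ a : ℕ → ℂ, (∀ ε : ENNReal, 0 < ε → ∃ F : Finset ℕ, ∀ G : Finset ℕ, F ⊆ G →
          NV p m (fun z => f z - ∑ k ∈ G, a k * e k (φ.symm z)) < ε) ↔
        (∀ ε : ENNReal, 0 < ε → ∃ F : Finset ℕ, ∀ G : Finset ℕ, F ⊆ G →
          NF n p (fun z => g z - ∑ k ∈ G, a k * e k z) < ε) := by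
      intro a
      constructor
      · intro h ε hε
        obtain ⟨F, hF⟩ := h (c * ε) (ENNReal.mul_pos hc0.ne' hε.ne')
        refine ⟨F, fun G hG => ?_⟩
        have := hF G hG
        rw [hkey] at this
        exact lt_of_mul_lt_mul_left' this
      · intro h ε hε
        obtain ⟨F, hF⟩ := h (ε / c) (ENNReal.div_pos hε.ne' hct)
        refine ⟨F, fun G hG => ?_⟩
        have := hF G hG
        rw [hkey]
        rw [ENNReal.lt_div_iff_mul_lt (Or.inl hc0.ne') (Or.inl hct)] at this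
        rwa [mul_comm]
    obtain ⟨a, ha, hu⟩ := he4 g hgd hgt
    exact ⟨a, (hiff a).2 ha, fun b hb => hu b ((hiff b).1 hb)⟩

end Pool.Agent.H795R2.Br
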